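import Pool.Agent.Helper75.PZ.GoalsA

/-!
# Project PZ, packet LEN: the length of the iterated curves and of the limit
-/

namespace Pool.Agent.Helper9.PZ

open Finset Filter Topology
open Pool.Agent.Helper75.PZ

theorem gam_self {M : Type} (P : M → M → ℕ → M) (T : M → M → ℕ → ℝ) (N n : ℕ) (x : M) (u : ℝ) :
    Gam P T N n x x u = x := by
  cases n with
  | zero => simp [Gam]
  | succ n => simp [Gam]

theorem var_zero {M : Type} [MetricSpace M] (x y : M) :
    eVariationOn (fun u : ℝ => if u < 1 then x else y) Set.univ ≤ ENNReal.ofReal (dist x y) := by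
  unfold eVariationOn
  refine iSup_le fun q => ?_
  obtain ⟨n, u, hu, -⟩ := q
  have key : ∀ n : ℕ, (u n < 1 → ∑ i ∈ range n,
      edist ((fun u : ℝ => if u < 1 then x else y) (u (i + 1)))
        ((fun u : ℝ => if u < 1 then x else y) (u i)) = 0) ∧
      ∑ i ∈ range n, edist ((fun u : ℝ => if u < 1 then x else y) (u (i + 1)))
        ((fun u : ℝ => if u < 1 then x else y) (u i)) ≤ ENNReal.ofReal (dist x y) := by
    intro n
    induction n with
    | zero => simp
    | succ n ih =>
      rw [sum_range_succ]
      by_cases h1 : u (n + 1) < 1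
      · have h0 : u n < 1 := (hu (Nat.le_succ n)).trans_lt h1
        have e : ((fun u : ℝ => if u < 1 then x else y) (u (n + 1))) = x := if_pos h1
        have e' : ((fun u : ℝ => if u < 1 then x else y) (u n)) = x := if_pos h0
        rw [e, e', ih.1 h0, edist_self, add_zero]
        exact ⟨fun _ => rfl, zero_le⟩
      · refine ⟨fun h => absurd h h1, ?_⟩
        have e : ((fun u : ℝ => if u < 1 then x else y) (u (n + 1))) = y := if_neg h1
        by_cases h0 : u n < 1
        · have e' : ((fun u : ℝ => if u < 1 then x else y) (u n)) = x := if_pos h0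
          rw [e, e', ih.1 h0, zero_add, edist_dist, dist_comm]
        · have e' : ((fun u : ℝ => if u < 1 then x else y) (u n)) = y := if_neg h0
          rw [e, e', edist_self, add_zero]
          exact ih.2
  exact (key n).2

section

variable {M : Type} [MetricSpace M] {R k K s : ℝ} {N : ℕ} {P : M → M → ℕ → M}
    {T : M → M → ℕ → ℝ} {w : ℝ → ℝ}

theorem var_gam (hCTV : P_CTV) (hGAM : P_GAM) (hk0 : 0 ≤ k) (hk1 : k ≤ 1) (hK : 0 ≤ K)
    (hs0 : 0 < s) (hs1 : s ≤ 1) (hR : Rule M R k K s N P T) (hw : Monotone w)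
    (hsum : ∀ x y : M, x ≠ y → dist x y ≤ R →
      ∑ i ∈ range N, dist (P x y i) (P x y (i + 1)) ≤ (1 + 2 * w (dist x y)) * dist x y)
    (n : ℕ) : ∀ x y : M, dist x y ≤ R → eVariationOn (Gam P T N n x y) Set.univ ≤
      ENNReal.ofReal (dist x y * Real.exp (2 * ∑ j ∈ range n, w (k ^ j * dist x y))) := by
  induction n with
  | zero =>
    intro x y _
    have h := var_zero x y
    simpa [Gam] using h
  | succ n ih =>
    intro x y hxy
    by_cases hne : x = y
    · subst hne
      have : eVariationOn (Gam P T N (n + 1) x x) Set.univ = 0 := by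
        refine eVariationOn.constant_on ?_
        rintro _ ⟨a, _, rfl⟩ _ ⟨b, _, rfl⟩
        rw [gam_self, gam_self]
      rw [this]
      exact zero_le
    set D := dist x y with hD
    have hD0 : 0 ≤ D := dist_nonneg
    have ha : ∀ i < N, dist (P x y i) (P x y (i + 1)) ≤ k * D := fun i hi =>
      hR.hk x y hne hxy i hi
    have haR : ∀ i < N, dist (P x y i) (P x y (i + 1)) ≤ R := fun i hi =>
      (ha i hi).trans (((mul_le_of_le_one_left hD0 hk1)).trans hxy)
    have hfun : Gam P T N (n + 1) x y = cat (P x y) (T x y)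
        (fun i v => Gam P T N n (P x y i) (P x y (i + 1)) (v / T x y i)) N := by
      funext u
      simp [Gam, hne]
    rw [hfun]
    refine (hCTV M (P x y) (T x y)
      (fun i v => Gam P T N n (P x y i) (P x y (i + 1)) (v / T x y i)) N
      (fun i => ENNReal.ofReal (dist (P x y i) (P x y (i + 1)) *
        Real.exp (2 * ∑ j ∈ range n, w (k ^ j * dist (P x y i) (P x y (i + 1))))))
      (hR.T0 x y hne hxy) ?_ ?_ ?_).trans ?_
    · intro i hi v hv
      exact (hGAM M R k K s N P T hk0 hk1 hK hs0 hs1 hR n _ _ (haR i hi)).1 _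
        (div_nonpos_of_nonpos_of_nonneg hv (hR.T0 x y hne hxy i hi))
    · intro i hi v hv
      rcases (hR.T0 x y hne hxy i hi).eq_or_lt with h0 | h0
      · have h1 := hR.hs x y hne hxy i hi
        rw [← h0, Real.zero_rpow hs0.ne', zero_mul] at h1
        have h2 : P x y i = P x y (i + 1) := dist_le_zero.1 h1
        show Gam P T N n (P x y i) (P x y (i + 1)) (v / T x y i) = P x y (i + 1)
        rw [← h2]
        exact gam_self P T N n _ _
      · exact (hGAM M R k K s N P T hk0 hk1 hK hs0 hs1 hR n _ _ (haR i hi)).2.1 _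
          ((one_le_div h0).2 hv)
    · intro i hi
      refine le_trans ?_ (ih (P x y i) (P x y (i + 1)) (haR i hi))
      refine eVariationOn.comp_le_of_monotoneOn (Gam P T N n (P x y i) (P x y (i + 1)))
        (fun v => v / T x y i) ?_ (fun _ _ => Set.mem_univ _)
      intro a _ b _ hab
      exact div_le_div_of_nonneg_right hab (hR.T0 x y hne hxy i hi)
    · have hle : ∀ i ∈ range N, ENNReal.ofReal (dist (P x y i) (P x y (i + 1)) *
          Real.exp (2 * ∑ j ∈ range n, w (k ^ j * dist (P x y i) (P x y (i + 1))))) ≤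
          ENNReal.ofReal (dist (P x y i) (P x y (i + 1)) *
            Real.exp (2 * ∑ j ∈ range n, w (k ^ (j + 1) * D))) := by
        intro i hi
        refine ENNReal.ofReal_le_ofReal ?_
        refine mul_le_mul_of_nonneg_left (Real.exp_le_exp.2 ?_) dist_nonneg
        refine mul_le_mul_of_nonneg_left ?_ (by norm_num)
        refine sum_le_sum fun j _ => hw ?_
        rw [pow_succ, mul_assoc]
        exact mul_le_mul_of_nonneg_left (ha i (mem_range.1 hi)) (pow_nonneg hk0 j)
      refine (sum_le_sum hle).trans ?_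
      rw [← ENNReal.ofReal_sum_of_nonneg (fun i _ => by positivity)]
      refine ENNReal.ofReal_le_ofReal ?_
      rw [← sum_mul]
      have h1 := hsum x y hne hxy
      have h2 : (1 + 2 * w D) ≤ Real.exp (2 * w D) := by
        have := Real.add_one_le_exp (2 * w D)
        linarith
      have h3 : ∑ i ∈ range N, dist (P x y i) (P x y (i + 1)) ≤ Real.exp (2 * w D) * D :=
        h1.trans (mul_le_mul_of_nonneg_right h2 hD0)
      refine (mul_le_mul_of_nonneg_right h3 (Real.exp_pos _).le).trans (le_of_eq ?_)
      rw [sum_range_succ' _ n, pow_zero, one_mul, mul_add, Real.exp_add]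
      ring

end

/-- **P_LEN** (length of the iterated curves and of the limit). -/
theorem len (hCTV : P_CTV) (hGAM : P_GAM) : P_LEN := by
  intro M _ R k K s N P T w hk0 hk1 hK hs0 hs1 hR hw hw0 hsum x y L hxy hL hS
  by_contra hcon
  rw [not_le] at hcon
  have h1 := eVariationOn.lowerSemicontinuous_aux (s := Set.univ) (f := L)
    (F := fun n => Gam P T N n x y) (p := atTop) (fun u _ => hL u) hcon
  obtain ⟨n, hn⟩ := h1.exists
  refine absurd hn (not_lt.2 ?_)
  refine (var_gam hCTV hGAM hk0 hk1 hK hs0 hs1 hR hw hsum n x y hxy).trans ?_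
  refine ENNReal.ofReal_le_ofReal ?_
  refine mul_le_mul_of_nonneg_left (Real.exp_le_exp.2 ?_) dist_nonneg
  refine mul_le_mul_of_nonneg_left ?_ (by norm_num)
  exact hS.sum_le_tsum _ fun j _ => hw0 _

end Pool.Agent.Helper9.PZ
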