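import Mathlib
import Pool.Agent.Helper75.PZ.GoalsC

/-!
# PZ-SPC (packet 9426): super-step for a range of distances
-/

set_option autoImplicit false

namespace Pool.Agent.Helper9.PZ

open Pool.Agent.Helper75.PZ

theorem spc (hE : P_EKE) : P_SPC := by
  intro M _ _ c x y hc0 hc1 hxy hz
  have hD : 0 < dist x y := dist_pos.mpr hxy
  set D : ℝ := dist x y with hDdef
  obtain ⟨p1, p3, h1, h3, hsum, hmin⟩ := hE M c (D / 4) x y hc0 (by positivity)
  have d1 : 0 ≤ dist x p1 := dist_nonneg
  have d3 : 0 ≤ dist y p3 := dist_nonneg
  have hge : D / 2 ≤ dist p1 p3 := by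
    have t1 : dist x y ≤ dist x p1 + dist p1 p3 + dist p3 y := dist_triangle4 _ _ _ _
    rw [dist_comm p3 y] at t1
    rw [← hDdef] at t1
    linarith
  have hle : dist p1 p3 ≤ D := by
    have : 0 ≤ c * (dist x p1 + dist y p3) := by positivity
    linarith
  have hne : p1 ≠ p3 := by
    intro h
    rw [h, dist_self] at hge
    linarith
  obtain ⟨z, hz1, hz3, hgp⟩ := hz p1 p3 hne hge hle
  have hq : D / 4 ≤ (1 - c / 4) * D := by nlinarith
  have hgp' : dist p1 z + dist p3 z - dist p1 p3 ≤ (1 - c) * min (dist p1 z) (dist p3 z) := by
    have := hgp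
    unfold gp at this
    linarith
  refine ⟨p1, z, p3, h1.trans hq, ?_, ?_, ?_⟩
  · rcases le_total (dist p1 z) (dist p3 z) with h | h
    · rw [min_eq_left h] at hgp'
      have hx : D / 4 < dist x z := by
        by_contra hcon
        have := hmin z p3 (not_lt.mp hcon) h3 (by
          rw [dist_self, add_zero, dist_comm z p3]
          linarith)
        exact hz1 this.1
      have ht : dist x z ≤ dist x p1 + dist p1 z := dist_triangle _ _ _
      nlinarith
    · rw [min_eq_right h] at hgp'
      have hx : D / 4 < dist y z := by
        by_contra hcon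
        have := hmin p1 z h1 (not_lt.mp hcon) (by
          rw [dist_self, zero_add]
          linarith)
        exact hz3 this.2
      have ht : dist y z ≤ dist y p3 + dist p3 z := dist_triangle _ _ _
      nlinarith
  · rw [dist_comm z p3]
    rcases le_total (dist p1 z) (dist p3 z) with h | h
    · rw [min_eq_left h] at hgp'
      have hx : D / 4 < dist x z := by
        by_contra hcon
        have := hmin z p3 (not_lt.mp hcon) h3 (by
          rw [dist_self, add_zero, dist_comm z p3]
          linarith)
        exact hz1 this.1
      have ht : dist x z ≤ dist x p1 + dist p1 z := dist_triangle _ _ _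
      nlinarith
    · rw [min_eq_right h] at hgp'
      have hx : D / 4 < dist y z := by
        by_contra hcon
        have := hmin p1 z h1 (not_lt.mp hcon) (by
          rw [dist_self, zero_add]
          linarith)
        exact hz3 this.2
      have ht : dist y z ≤ dist y p3 + dist p3 z := dist_triangle _ _ _
      nlinarith
  · rw [dist_comm p3 y]
    exact h3.trans hq

end Pool.Agent.Helper9.PZ
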